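import Pool.Agent.Y63.NV.Stm8
import Pool.Agent.Y77.NV.Base
import Pool.Agent.Y761.NV.Kdimh

/-!
# Project NV, part KZ: the classes whose centraliser has Sylow `p`-subgroup `Z`, `Z` central
(helper968)
-/

set_option autoImplicit false
set_option linter.unusedSectionVars false

open scoped Classical

noncomputable section

namespace Pool.Agent.Y968.NV

open Pool.Agent.Y63.NV
open Pool.Agent.Y77.NV (pp_reg reg_pp pp_mem pp_conj pexp_modEq)
open Pool.Agent.Y761.NV (gen_iff)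

section grp

variable {p : ℕ} [Fact p.Prime] {Γ : Type} [Group Γ] [Finite Γ] {Z J : Subgroup Γ}

/-- the `p`-part of an element is a `p`-element -/
lemma ppart_pow (p : ℕ) [Fact p.Prime] (x : Γ) : ∃ k : ℕ, (x * (pp p x)⁻¹) ^ p ^ k = 1 := by
  have hp : p.Prime := Fact.out
  have ho : orderOf x ≠ 0 := (orderOf_pos x).ne'
  have h1 : p ^ (orderOf x).factorization p * (orderOf x / p ^ (orderOf x).factorization p) =
    orderOf x := Nat.ordProj_mul_ordCompl_eq_self _ _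
  have h2 := pexp_modEq p Γ _ _ (h1 ▸ orderOf_dvd_natCard x) (Nat.not_dvd_ordCompl hp ho)
  refine ⟨(orderOf x).factorization p, ?_⟩
  have hc : Commute x (pp p x)⁻¹ := ((Commute.refl x).pow_right _).inv_right
  rw [hc.mul_pow, inv_pow, mul_inv_eq_one]
  unfold pp
  rw [← pow_mul, pow_eq_pow_iff_modEq]
  have h3 := (h2.2.symm).mul_left' (p ^ (orderOf x).factorization p)
  rw [h1, mul_one] at h3
  rw [mul_comm (pexp p Γ)]
  exact h3

lemma mem_of_pelt (hp : IsPGroup p Z) {C : Subgroup Γ} (hZC : Z ≤ C)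
    (hcard : (Nat.card C).factorization p = (Nat.card Z).factorization p)
    {v : Γ} (hv : v ∈ C) (hvz : ∀ u ∈ Z, u * v = v * u) (hvp : ∃ k : ℕ, v ^ p ^ k = 1) :
    v ∈ Z := by
  have hprime : p.Prime := Fact.out
  have hV : IsPGroup p (Subgroup.zpowers v) := by
    obtain ⟨k, hk⟩ := hvp
    rintro ⟨g, hg⟩
    obtain ⟨i, rfl⟩ := Subgroup.mem_zpowers_iff.1 hg
    refine ⟨k, Subtype.ext ?_⟩
    change (v ^ i) ^ p ^ k = 1
    rw [← zpow_natCast, ← zpow_mul, mul_comm, zpow_mul, zpow_natCast, hk, one_zpow]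
  have hH : IsPGroup p ↥(Z ⊔ Subgroup.zpowers v) := by
    refine IsPGroup.to_sup_of_normal_left' hp hV ?_
    refine le_trans ?_ (Subgroup.centralizer_le_normalizer (Z : Set Γ))
    rw [Subgroup.zpowers_le, Subgroup.mem_centralizer_iff]
    intro u hu
    exact hvz u hu
  have hHC : Z ⊔ Subgroup.zpowers v ≤ C := by
    refine sup_le hZC ?_
    rw [Subgroup.zpowers_le]
    exact hv
  obtain ⟨a, ha⟩ := IsPGroup.iff_card.1 hp
  obtain ⟨b, hb⟩ := IsPGroup.iff_card.1 hH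
  have h1 : p ^ b ∣ Nat.card C := hb ▸ Subgroup.card_dvd_of_le hHC
  have h2 : b ≤ a := by
    have h3 := (hprime.pow_dvd_iff_le_factorization Nat.card_pos.ne').1 h1
    rw [hcard, ha, hprime.factorization_pow, Finsupp.single_eq_same] at h3
    exact h3
  have h4 : Z = Z ⊔ Subgroup.zpowers v := by
    refine Subgroup.eq_of_le_of_card_ge le_sup_left ?_
    rw [ha, hb]
    exact Nat.pow_le_pow_right hprime.pos h2
  rw [h4]
  exact (le_sup_right : Subgroup.zpowers v ≤ Z ⊔ Subgroup.zpowers v) (Subgroup.mem_zpowers v)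

lemma cent_eq (hZ : ∀ u ∈ Z, ∀ g ∈ J, u * g = g * u) {v : Γ} (hv : v ∈ Z) (x : Γ) :
    J ⊓ Subgroup.centralizer {v * x} = J ⊓ Subgroup.centralizer {x} := by
  ext y
  simp only [Subgroup.mem_inf, Subgroup.mem_centralizer_iff, Set.mem_singleton_iff, forall_eq]
  constructor
  · rintro ⟨h1, h2⟩
    refine ⟨h1, ?_⟩
    have h3 := hZ v hv y h1
    have h4 : v * (x * y) = v * (y * x) := by
      rw [← mul_assoc, h2, ← mul_assoc, ← mul_assoc, h3]
    exact mul_left_cancel h4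
  · rintro ⟨h1, h2⟩
    refine ⟨h1, ?_⟩
    have h3 := hZ v hv y h1
    rw [mul_assoc, h2, ← mul_assoc, ← mul_assoc, h3]

lemma sa_of_sr (hZJ : Z ≤ J) (hZ : ∀ u ∈ Z, ∀ g ∈ J, u * g = g * u) {v x : Γ} (hv : v ∈ Z)
    (hx : x ∈ SR p J J Z) : v * x ∈ SA p J Z := by
  refine ⟨J.mul_mem (hZJ hv) hx.1, fun r hr => hZ r hr _ (J.mul_mem (hZJ hv) hx.1), ?_⟩
  rw [cent_eq hZ hv]
  exact hx.2.2.2

lemma pp_mul (hpZ : IsPGroup p Z) (hZ : ∀ u ∈ Z, ∀ g ∈ J, u * g = g * u) {v x : Γ} (hv : v ∈ Z)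
    (hx : x ∈ SR p J J Z) : pp p (v * x) = x := by
  have hc : Commute v x := hZ v hv x hx.1
  have h1 : v ^ pexp p Γ = 1 := by
    obtain ⟨k, hk⟩ := hpZ ⟨v, hv⟩
    have hk' : v ^ p ^ k = 1 := congrArg Subtype.val hk
    have h2 : orderOf v ∣ p ^ k := orderOf_dvd_of_pow_eq_one hk'
    obtain ⟨e, -, he⟩ := (Nat.dvd_prime_pow Fact.out).1 h2
    have h3 := pexp_modEq p Γ e 1 (by rw [mul_one, ← he]; exact orderOf_dvd_natCard v)
      (fun h => (Fact.out : p.Prime).one_lt.ne' (Nat.dvd_one.1 h))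
    rw [← orderOf_dvd_iff_pow_eq_one, he]
    exact (Nat.modEq_zero_iff_dvd).1 h3.1
  have h2 : pp p (v * x) = v ^ pexp p Γ * x ^ pexp p Γ := hc.mul_pow _
  rw [h2, h1, one_mul]
  exact pp_reg x hx.2.1

/-- the decomposition of an element with `pp p x ∈ SR` -/
lemma ppart_mem (hZJ : Z ≤ J) (hpZ : IsPGroup p Z) (hZ : ∀ u ∈ Z, ∀ g ∈ J, u * g = g * u)
    {x : Γ} (hx : x ∈ J) (h : pp p x ∈ SR p J J Z) : x * (pp p x)⁻¹ ∈ Z := by
  have hx' : x * (pp p x)⁻¹ ∈ J := J.mul_mem hx (J.inv_mem (pp_mem J hx))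
  refine mem_of_pelt (C := J ⊓ Subgroup.centralizer {pp p x}) hpZ ?_ h.2.2.2 ?_
    (fun u hu => hZ u hu _ hx') (ppart_pow p x)
  · refine le_inf hZJ fun u hu => ?_
    rw [Subgroup.mem_centralizer_iff]
    intro y hy
    rw [Set.mem_singleton_iff.1 hy]
    exact (hZ u hu _ h.1).symm
  · refine ⟨hx', ?_⟩
    change x * (pp p x)⁻¹ ∈ Subgroup.centralizer {pp p x}
    rw [Subgroup.mem_centralizer_iff]
    intro y hy
    rw [Set.mem_singleton_iff.1 hy]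
    have hc : Commute (pp p x) (x * (pp p x)⁻¹) :=
      ((Commute.refl x).pow_left _).mul_right (Commute.refl _).inv_right
    exact hc.eq

/-- the decomposition of the elements of `SA` -/
lemma sa_dec (hZJ : Z ≤ J) (hpZ : IsPGroup p Z) (hZ : ∀ u ∈ Z, ∀ g ∈ J, u * g = g * u)
    {x : Γ} (hx : x ∈ SA p J Z) : ∃ w : Z, ∃ x₀ ∈ SR p J J Z, x = w * x₀ := by
  have hx' : x * (pp p x)⁻¹ ∈ J := J.mul_mem hx.1 (J.inv_mem (pp_mem J hx.1))
  have hw : x * (pp p x)⁻¹ ∈ Z := by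
    refine mem_of_pelt (C := J ⊓ Subgroup.centralizer {x}) hpZ ?_ hx.2.2 ?_
      (fun u hu => hZ u hu _ hx') (ppart_pow p x)
    · refine le_inf hZJ fun u hu => ?_
      rw [Subgroup.mem_centralizer_iff]
      intro y hy
      rw [Set.mem_singleton_iff.1 hy]
      exact (hZ u hu _ hx.1).symm
    · refine ⟨hx', ?_⟩
      change x * (pp p x)⁻¹ ∈ Subgroup.centralizer {x}
      rw [Subgroup.mem_centralizer_iff]
      intro y hy
      rw [Set.mem_singleton_iff.1 hy]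
      have hc : Commute x (x * (pp p x)⁻¹) :=
        (Commute.refl x).mul_right ((Commute.refl x).pow_right _).inv_right
      exact hc.eq
  have he : x = (x * (pp p x)⁻¹) * pp p x := by rw [inv_mul_cancel_right]
  refine ⟨⟨_, hw⟩, pp p x, ⟨pp_mem J hx.1, reg_pp x, fun r hr => hZ r hr _ (pp_mem J hx.1), ?_⟩, he⟩
  have h1 := cent_eq hZ hw (pp p x)
  rw [← he] at h1
  rw [← h1]
  exact hx.2.2

lemma card_cent_conj {j : Γ} (hj : j ∈ J) (x : Γ) :
    Nat.card ↥(J ⊓ Subgroup.centralizer {j * x * j⁻¹}) =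
      Nat.card ↥(J ⊓ Subgroup.centralizer {x}) := by
  have key : ∀ (j x : Γ), j ∈ J → ∀ y ∈ J ⊓ Subgroup.centralizer {x},
      j * y * j⁻¹ ∈ J ⊓ Subgroup.centralizer {j * x * j⁻¹} := by
    intro j x hj y hy
    refine ⟨J.mul_mem (J.mul_mem hj hy.1) (J.inv_mem hj), ?_⟩
    have h1 : y ∈ Subgroup.centralizer {x} := hy.2
    change j * y * j⁻¹ ∈ Subgroup.centralizer {j * x * j⁻¹}
    rw [Subgroup.mem_centralizer_iff] at h1 ⊢
    intro w hw
    rw [Set.mem_singleton_iff.mp hw]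
    have h2 := h1 x rfl
    calc j * x * j⁻¹ * (j * y * j⁻¹) = j * (x * y) * j⁻¹ := by group
      _ = j * (y * x) * j⁻¹ := by rw [h2]
      _ = j * y * j⁻¹ * (j * x * j⁻¹) := by group
  refine Nat.card_congr
    { toFun := fun y => ⟨j⁻¹ * y * j, ?_⟩
      invFun := fun y => ⟨j * y * j⁻¹, key j x hj y y.2⟩
      left_inv := fun y => Subtype.ext (by change j * (j⁻¹ * y * j) * j⁻¹ = y; group)
      right_inv := fun y => Subtype.ext (by change j⁻¹ * (j * y * j⁻¹) * j = y; group) }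
  have h := key j⁻¹ (j * x * j⁻¹) (J.inv_mem hj) y y.2
  have e : j⁻¹ * (j * x * j⁻¹) * j⁻¹⁻¹ = x := by group
  rw [e, inv_inv] at h
  exact h

lemma sr_conj (hZ : ∀ u ∈ Z, ∀ g ∈ J, u * g = g * u) {j : Γ} (hj : j ∈ J) {x : Γ}
    (hx : x ∈ SR p J J Z) : j * x * j⁻¹ ∈ SR p J J Z := by
  have h5 := J.mul_mem (J.mul_mem hj hx.1) (J.inv_mem hj)
  refine ⟨h5, ?_, fun r hr => hZ r hr _ h5, ?_⟩
  · have h : pp p (j * x * j⁻¹) = j * x * j⁻¹ := by rw [pp_conj, pp_reg x hx.2.1]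
    rw [← h]
    exact reg_pp _
  · rw [card_cent_conj hj]
    exact hx.2.2.2

section sums

variable {F : Type} [Field F] [Fintype Z]

/-- a sum over `Z` has only one term -/
lemma sum_pick (hZ : ∀ u ∈ Z, ∀ g ∈ J, u * g = g * u) (hpZ : IsPGroup p Z)
    (θ : Z → Γ → F) (hθ : ∀ v x, x ∉ SR p J J Z → θ v x = 0) (w : Z) {x₀ : Γ}
    (hx : x₀ ∈ SR p J J Z) :
    ∑ v : Z, θ v ((v : Γ)⁻¹ * ((w : Γ) * x₀)) = θ w x₀ := by
  rw [Finset.sum_eq_single w]
  · rw [inv_mul_cancel_left]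
  · intro v _ hvw
    apply hθ
    intro h
    apply hvw
    have h1 := pp_mul hpZ hZ v.2 h
    rw [mul_inv_cancel_left, pp_mul hpZ hZ w.2 hx] at h1
    have h2 : (v : Γ) * x₀ = (w : Γ) * x₀ := by
      conv_lhs => rw [h1]
      rw [mul_inv_cancel_left]
    exact Subtype.ext (mul_right_cancel h2)
  · intro h
    exact absurd (Finset.mem_univ _) h

lemma sum_none (hZJ : Z ≤ J) (hZ : ∀ u ∈ Z, ∀ g ∈ J, u * g = g * u)
    (θ : Z → Γ → F) (hθ : ∀ v x, x ∉ SR p J J Z → θ v x = 0) {x : Γ} (hx : x ∉ SA p J Z) :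
    ∑ v : Z, θ v ((v : Γ)⁻¹ * x) = 0 := by
  refine Finset.sum_eq_zero fun v _ => hθ _ _ fun h => hx ?_
  have h1 := sa_of_sr hZJ hZ v.2 h
  rwa [mul_inv_cancel_left] at h1

lemma sum_pp (hZJ : Z ≤ J) (hpZ : IsPGroup p Z) (hZ : ∀ u ∈ Z, ∀ g ∈ J, u * g = g * u)
    (e : Γ → F) (he : ∀ x, x ∉ SR p J J Z → e x = 0) {u : Γ} (hu : u ∈ J) :
    ∑ v : Z, e ((v : Γ)⁻¹ * u) = e (pp p u) := by
  by_cases h : pp p u ∈ SR p J J Z
  · have h1 := ppart_mem hZJ hpZ hZ hu h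
    have h2 := sum_pick hZ hpZ (fun _ => e) (fun _ x hx => he x hx) ⟨_, h1⟩ h
    rw [← h2]
    refine Finset.sum_congr rfl fun v _ => ?_
    change e _ = e ((v : Γ)⁻¹ * (u * (pp p u)⁻¹ * pp p u))
    rw [inv_mul_cancel_right]
  · rw [he _ h]
    refine Finset.sum_eq_zero fun v _ => he _ fun h1 => h ?_
    have h2 := pp_mul hpZ hZ v.2 h1
    rw [mul_inv_cancel_left] at h2
    rw [h2]
    exact h1

end sums

end grp

section ops

variable {p : ℕ} [Fact p.Prime] {F : Type} [Field F] {Γ : Type} [Group Γ] [Fintype Γ]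
  {Z J : Subgroup Γ}

/-- the operators `A v` -/
def Afun (p : ℕ) (J Z : Subgroup Γ) (z : Γ → F) (v : Γ) (e : Γ → F) : Γ → F :=
  fun x => if x ∈ SR p J J Z then ∑ g : Γ, z g * e (v⁻¹ * (g * x)) else 0

lemma Afun_mem (hZ : ∀ u ∈ Z, ∀ g ∈ J, u * g = g * u) {z : Γ → F}
    (hz : ∀ h ∈ J, ∀ x : Γ, z (h * x * h⁻¹) = z x) {v : Γ} (hv : v ∈ Z) {e : Γ → F}
    (he : e ∈ VS (F := F) (SR p J J Z) J) : Afun p J Z z v e ∈ VS (F := F) (SR p J J Z) J := by
  refine ⟨fun x hx => if_neg hx, fun j hj x => ?_⟩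
  unfold Afun
  by_cases hx : x ∈ SR p J J Z
  · rw [if_pos hx, if_pos (sr_conj hZ hj hx)]
    refine Fintype.sum_equiv (MulAut.conj j⁻¹).toEquiv _ _ fun g => ?_
    change z g * e (v⁻¹ * (g * (j * x * j⁻¹))) = z (j⁻¹ * g * j⁻¹⁻¹) *
      e (v⁻¹ * (j⁻¹ * g * j⁻¹⁻¹ * x))
    rw [hz _ (J.inv_mem hj), inv_inv, ← he.2 j hj (v⁻¹ * (j⁻¹ * g * j * x))]
    congr 2
    have h1 : v⁻¹ * j = j * v⁻¹ := by
      rw [inv_mul_eq_iff_eq_mul, ← mul_assoc, hZ v hv j hj, mul_assoc, mul_inv_cancel, mul_one]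
    calc v⁻¹ * (g * (j * x * j⁻¹)) = (v⁻¹ * j) * (j⁻¹ * g * j * x * j⁻¹) := by group
      _ = (j * v⁻¹) * (j⁻¹ * g * j * x * j⁻¹) := by rw [h1]
      _ = j * (v⁻¹ * (j⁻¹ * g * j * x)) * j⁻¹ := by group
  · have hx' : j * x * j⁻¹ ∉ SR p J J Z := by
      intro h
      apply hx
      have h1 := sr_conj hZ (J.inv_mem hj) h
      have h2 : j⁻¹ * (j * x * j⁻¹) * j⁻¹⁻¹ = x := by group
      rwa [h2] at h1
    rw [if_neg hx, if_neg hx']

/-- the operators `A v` on the space `E` -/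
def Aop (hZ : ∀ u ∈ Z, ∀ g ∈ J, u * g = g * u) {z : Γ → F}
    (hz : ∀ h ∈ J, ∀ x : Γ, z (h * x * h⁻¹) = z x) (v : Z) :
    Module.End F (VS (F := F) (SR p J J Z) J) where
  toFun e := ⟨Afun p J Z z v e, Afun_mem hZ hz v.2 e.2⟩
  map_add' a b := by
    refine Subtype.ext (funext fun x => ?_)
    change Afun p J Z z v ((a : Γ → F) + b) x = Afun p J Z z v a x + Afun p J Z z v b x
    unfold Afun
    by_cases hx : x ∈ SR p J J Z
    · rw [if_pos hx, if_pos hx, if_pos hx, ← Finset.sum_add_distrib]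
      refine Finset.sum_congr rfl fun g _ => ?_
      rw [Pi.add_apply, mul_add]
    · rw [if_neg hx, if_neg hx, if_neg hx, add_zero]
  map_smul' c a := by
    refine Subtype.ext (funext fun x => ?_)
    change Afun p J Z z v (c • (a : Γ → F)) x = c * Afun p J Z z v a x
    unfold Afun
    by_cases hx : x ∈ SR p J J Z
    · rw [if_pos hx, if_pos hx, Finset.mul_sum]
      refine Finset.sum_congr rfl fun g _ => ?_
      rw [Pi.smul_apply, smul_eq_mul]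
      ring
    · rw [if_neg hx, if_neg hx, mul_zero]

variable [Fintype Z]

/-- the operator `K` on the families -/
def Kz (hZ : ∀ u ∈ Z, ∀ g ∈ J, u * g = g * u) {z : Γ → F}
    (hz : ∀ h ∈ J, ∀ x : Γ, z (h * x * h⁻¹) = z x) :
    Module.End F (Z → VS (F := F) (SR p J J Z) J) :=
  LinearMap.pi fun w => ∑ v : Z, (Aop (p := p) hZ hz v) ∘ₗ LinearMap.proj (v * w)

lemma Kz_apply (hZ : ∀ u ∈ Z, ∀ g ∈ J, u * g = g * u) {z : Γ → F}
    (hz : ∀ h ∈ J, ∀ x : Γ, z (h * x * h⁻¹) = z x) (θ : Z → VS (F := F) (SR p J J Z) J) (w : Z) :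
    Kz (p := p) hZ hz θ w = ∑ v : Z, Aop (p := p) hZ hz v (θ (v * w)) := by
  unfold Kz
  rw [LinearMap.pi_apply, LinearMap.sum_apply]
  rfl

/-- the map `Φ` -/
def Phi (p : ℕ) (F : Type) [Field F] (J Z : Subgroup Γ) [Fintype Z] :
    (Z → VS (F := F) (SR p J J Z) J) →ₗ[F] (Γ → F) where
  toFun θ := fun x => ∑ v : Z, (θ v : Γ → F) ((v : Γ)⁻¹ * x)
  map_add' a b := by
    funext x
    rw [Pi.add_apply, ← Finset.sum_add_distrib]
    rfl
  map_smul' c a := by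
    funext x
    rw [Pi.smul_apply, RingHom.id_apply, smul_eq_mul, Finset.mul_sum]
    rfl

lemma Phi_apply (θ : Z → VS (F := F) (SR p J J Z) J) (x : Γ) :
    Phi p F J Z θ x = ∑ v : Z, (θ v : Γ → F) ((v : Γ)⁻¹ * x) := rfl

lemma Phi_pick (hpZ : IsPGroup p Z) (hZ : ∀ u ∈ Z, ∀ g ∈ J, u * g = g * u)
    (θ : Z → VS (F := F) (SR p J J Z) J) (w : Z) {x₀ : Γ} (hx : x₀ ∈ SR p J J Z) :
    Phi p F J Z θ ((w : Γ) * x₀) = (θ w : Γ → F) x₀ :=
  sum_pick hZ hpZ (fun v => (θ v : Γ → F)) (fun v x hx => (θ v).2.1 x hx) w hx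

lemma Phi_none (hZJ : Z ≤ J) (hZ : ∀ u ∈ Z, ∀ g ∈ J, u * g = g * u)
    (θ : Z → VS (F := F) (SR p J J Z) J) {x : Γ} (hx : x ∉ SA p J Z) :
    Phi p F J Z θ x = 0 :=
  sum_none hZJ hZ (fun v => (θ v : Γ → F)) (fun v x hx => (θ v).2.1 x hx) hx

lemma Phi_inj (hpZ : IsPGroup p Z) (hZ : ∀ u ∈ Z, ∀ g ∈ J, u * g = g * u) :
    Function.Injective (Phi p F J Z) := by
  intro a b hab
  funext w
  refine Subtype.ext (funext fun x => ?_)
  by_cases hx : x ∈ SR p J J Z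
  · have h1 := congrFun hab ((w : Γ) * x)
    rwa [Phi_pick hpZ hZ a w hx, Phi_pick hpZ hZ b w hx] at h1
  · rw [(a w).2.1 x hx, (b w).2.1 x hx]

lemma Phi_range (hZJ : Z ≤ J) (hpZ : IsPGroup p Z) (hZ : ∀ u ∈ Z, ∀ g ∈ J, u * g = g * u)
    (η : Γ → F) : η ∈ VS (F := F) (SA p J Z) J ↔ ∃ θ, Phi p F J Z θ = η := by
  constructor
  · intro hη
    let θ : Z → VS (F := F) (SR p J J Z) J := fun v =>
      ⟨fun x => if x ∈ SR p J J Z then η ((v : Γ) * x) else 0, fun x hx => if_neg hx,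
        fun j hj x => by
          by_cases hx : x ∈ SR p J J Z
          · change (if j * x * j⁻¹ ∈ SR p J J Z then η ((v : Γ) * (j * x * j⁻¹)) else 0) =
              if x ∈ SR p J J Z then η ((v : Γ) * x) else 0
            rw [if_pos hx, if_pos (sr_conj hZ hj hx), ← hη.2 j hj ((v : Γ) * x)]
            congr 1
            have h1 := hZ v v.2 j hj
            calc (v : Γ) * (j * x * j⁻¹) = (v * j) * (x * j⁻¹) := by group
              _ = (j * v) * (x * j⁻¹) := by rw [h1]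
              _ = j * (v * x) * j⁻¹ := by group
          · have hx' : j * x * j⁻¹ ∉ SR p J J Z := by
              intro h
              apply hx
              have h1 := sr_conj hZ (J.inv_mem hj) h
              have h2 : j⁻¹ * (j * x * j⁻¹) * j⁻¹⁻¹ = x := by group
              rwa [h2] at h1
            change (if j * x * j⁻¹ ∈ SR p J J Z then η ((v : Γ) * (j * x * j⁻¹)) else 0) =
              if x ∈ SR p J J Z then η ((v : Γ) * x) else 0
            rw [if_neg hx, if_neg hx']⟩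
    refine ⟨θ, funext fun x => ?_⟩
    by_cases hx : x ∈ SA p J Z
    · obtain ⟨w, x₀, hx₀, rfl⟩ := sa_dec hZJ hpZ hZ hx
      rw [Phi_pick hpZ hZ θ w hx₀]
      change (if x₀ ∈ SR p J J Z then η ((w : Γ) * x₀) else 0) = _
      rw [if_pos hx₀]
    · rw [Phi_none hZJ hZ θ hx, hη.1 x hx]
  · rintro ⟨θ, rfl⟩
    refine ⟨fun x hx => Phi_none hZJ hZ θ hx, fun j hj x => ?_⟩
    rw [Phi_apply, Phi_apply]
    refine Finset.sum_congr rfl fun v _ => ?_
    rw [← (θ v).2.2 j hj ((v : Γ)⁻¹ * x)]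
    refine congrArg (θ v : Γ → F) ?_
    have h1 : (v : Γ)⁻¹ * j = j * (v : Γ)⁻¹ := hZ _ (Z.inv_mem v.2) j hj
    calc (v : Γ)⁻¹ * (j * x * j⁻¹) = ((v : Γ)⁻¹ * j) * (x * j⁻¹) := by group
      _ = (j * (v : Γ)⁻¹) * (x * j⁻¹) := by rw [h1]
      _ = j * ((v : Γ)⁻¹ * x) * j⁻¹ := by group

/-- the operator `K` on the families is the operator `K` on the functions -/
lemma inter (hZJ : Z ≤ J) (hpZ : IsPGroup p Z) (hZ : ∀ u ∈ Z, ∀ g ∈ J, u * g = g * u) {z : Γ → F}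
    (hz : ∀ h ∈ J, ∀ x : Γ, z (h * x * h⁻¹) = z x) (hs : ∀ x : Γ, x ∉ J → z x = 0)
    (θ : Z → VS (F := F) (SR p J J Z) J) :
    Kop z (SA p J Z) (Phi p F J Z θ) = Phi p F J Z (Kz (p := p) hZ hz θ) := by
  funext x
  change (if x ∈ SA p J Z then ∑ᶠ g : Γ, z g * Phi p F J Z θ (g * x) else 0) = _
  by_cases hx : x ∈ SA p J Z
  · rw [if_pos hx, finsum_eq_sum_of_fintype]
    obtain ⟨w, x₀, hx₀, rfl⟩ := sa_dec hZJ hpZ hZ hx
    rw [Phi_pick hpZ hZ _ w hx₀, Kz_apply]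
    have h1 : ((∑ v : Z, Aop (p := p) hZ hz v (θ (v * w)) : VS (F := F) (SR p J J Z) J) :
        Γ → F) x₀ = ∑ v : Z, ∑ g : Γ, z g * (θ (v * w) : Γ → F) ((v : Γ)⁻¹ * (g * x₀)) := by
      rw [Submodule.coe_sum, Finset.sum_apply]
      refine Finset.sum_congr rfl fun v _ => ?_
      exact if_pos hx₀
    rw [h1, Finset.sum_comm]
    refine Finset.sum_congr rfl fun g _ => ?_
    rw [← Finset.mul_sum]
    by_cases hg : g ∈ J
    · congr 1
      rw [Phi_apply]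
      symm
      refine Fintype.sum_equiv (Equiv.mulRight w) _ _ fun v => ?_
      change (θ (v * w) : Γ → F) ((v : Γ)⁻¹ * (g * x₀)) =
        (θ (v * w) : Γ → F) (((v * w : Z) : Γ)⁻¹ * (g * ((w : Γ) * x₀)))
      refine congrArg (θ (v * w) : Γ → F) ?_
      have h2 := hZ w w.2 g hg
      rw [Subgroup.coe_mul, mul_inv_rev, ← mul_assoc g, ← h2]
      have h3 : (w : Γ)⁻¹ * (v : Γ)⁻¹ = (v : Γ)⁻¹ * (w : Γ)⁻¹ :=
        hZ _ (Z.inv_mem w.2) _ (hZJ (Z.inv_mem v.2))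
      rw [h3]
      group
    · rw [hs g hg, zero_mul, zero_mul]
  · rw [if_neg hx, Phi_none hZJ hZ _ hx]

/-- the sum of the operators `A v` is the operator for the regular elements -/
lemma interT (hZJ : Z ≤ J) (hpZ : IsPGroup p Z) (hZ : ∀ u ∈ Z, ∀ g ∈ J, u * g = g * u)
    {z : Γ → F} (hz : ∀ h ∈ J, ∀ x : Γ, z (h * x * h⁻¹) = z x) (hs : ∀ x : Γ, x ∉ J → z x = 0)
    (e : VS (F := F) (SR p J J Z) J) :
    Top p z (SR p J J Z) (e : Γ → F) =
      (((∑ v : Z, Aop (p := p) hZ hz v) e : VS (F := F) (SR p J J Z) J) : Γ → F) := by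
  funext x
  change (if x ∈ SR p J J Z then ∑ᶠ g : Γ, z g * (e : Γ → F) (pp p (g * x)) else 0) = _
  rw [LinearMap.sum_apply, Submodule.coe_sum, Finset.sum_apply]
  by_cases hx : x ∈ SR p J J Z
  · have h1 : ∀ v : Z, ((Aop (p := p) hZ hz v e : VS (F := F) (SR p J J Z) J) : Γ → F) x =
        ∑ g : Γ, z g * (e : Γ → F) ((v : Γ)⁻¹ * (g * x)) := fun v => if_pos hx
    rw [if_pos hx, finsum_eq_sum_of_fintype, Finset.sum_congr rfl fun v _ => h1 v,
      Finset.sum_comm]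
    refine Finset.sum_congr rfl fun g _ => ?_
    rw [← Finset.mul_sum]
    by_cases hg : g ∈ J
    · rw [sum_pp hZJ hpZ hZ _ (fun x hx => e.2.1 x hx) (J.mul_mem hg hx.1)]
    · rw [hs g hg, zero_mul, zero_mul]
  · rw [if_neg hx]
    symm
    exact Finset.sum_eq_zero fun v _ => if_neg hx

end ops

/-- **KZ** -/
theorem kz (h : S_KZLA) : S_KZ := by
  intro p hp F _ _ _ Γ _ _ Z J z c hZJ hZ hpZ hz hs
  have : Fintype Γ := Fintype.ofFinite Γ
  have : Fintype Z := Fintype.ofFinite Z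
  have key := h p F Z (VS (F := F) (SR p J J Z) J) (Aop (p := p) hZ hz) (Kz (p := p) hZ hz) c hpZ
    (fun θ w => by rw [Kz_apply, finsum_eq_sum_of_fintype])
  have h1 : ((Kz (p := p) hZ hz).maxGenEigenspace c).map (Phi p F J Z) =
      VS (F := F) (SA p J Z) J ⊓ (Kop z (SA p J Z)).maxGenEigenspace c := by
    ext η
    rw [Submodule.mem_map]
    constructor
    · rintro ⟨θ, h2, rfl⟩
      exact ⟨(Phi_range hZJ hpZ hZ _).2 ⟨θ, rfl⟩,
        (gen_iff (Phi p F J Z) (Phi_inj hpZ hZ) _ _ (inter hZJ hpZ hZ hz hs) c θ).2 h2⟩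
    · rintro ⟨h2, h3⟩
      obtain ⟨θ, rfl⟩ := (Phi_range hZJ hpZ hZ _).1 h2
      exact ⟨θ, (gen_iff (Phi p F J Z) (Phi_inj hpZ hZ) _ _ (inter hZJ hpZ hZ hz hs) c θ).1 h3,
        rfl⟩
  have h2 : ((∑ v : Z, Aop (p := p) hZ hz v).maxGenEigenspace c).map
      (VS (F := F) (SR p J J Z) J).subtype =
      VS (F := F) (SR p J J Z) J ⊓ (Top p z (SR p J J Z)).maxGenEigenspace c := by
    ext η
    rw [Submodule.mem_map]
    constructor
    · rintro ⟨θ, h2, rfl⟩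
      exact ⟨θ.2, (gen_iff (VS (F := F) (SR p J J Z) J).subtype
        (Submodule.injective_subtype _) _ _ (interT hZJ hpZ hZ hz hs) c θ).2 h2⟩
    · rintro ⟨h2, h3⟩
      exact ⟨⟨η, h2⟩, (gen_iff (VS (F := F) (SR p J J Z) J).subtype
        (Submodule.injective_subtype _) _ _ (interT hZJ hpZ hZ hz hs) c ⟨η, h2⟩).1 h3, rfl⟩
  unfold gk gm
  rw [← h1, ← h2, ← (Submodule.equivMapOfInjective _ (Phi_inj hpZ hZ) _).finrank_eq,
    ← (Submodule.equivMapOfInjective _ (Submodule.injective_subtype _) _).finrank_eq, key,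
    finsum_eq_sum_of_fintype]

end Pool.Agent.Y968.NV
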